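import Pool.Agent.W809.JS.Stm

set_option autoImplicit false

open MeasureTheory Filter Topology Set Metric Real
open Pool.Agent.Results.MP_5c297c_an.NotJessen
open Pool.Agent.W809.JS

namespace Pool.Agent.W115.JS.NullN

variable {n : ℕ}

/-- the point with prescribed coordinate -/
noncomputable def pt (p : Fin n → ℝ) (i j : Fin n) (x : Fin n → ℝ) (t s : ℝ) : Fin n → ℂ :=
  Function.update (cpt x (yt p i j t)) i ((s : ℂ) + ((p i + t ^ 2 : ℝ) : ℂ) * Complex.I)

lemma pt_eq (p : Fin n → ℝ) {i j : Fin n} (hij : i ≠ j) (x : Fin n → ℝ) (t s : ℝ) :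
    pt p i j x t s = cpt (Function.update x i s) (yt p i j t) := by
  funext k
  by_cases hk : k = i
  · subst hk
    simp [pt, cpt, yt, hij]
  · simp [pt, cpt, hk]

lemma yt_mem (p : Fin n → ℝ) {i j : Fin n} (hij : i ≠ j) {R b t : ℝ} (hR : 0 < R) (hbR : b < R)
    (hb2 : b ^ 2 < R) (ht : t ∈ Icc 0 b) : yt p i j t ∈ ball p R := by
  rw [mem_ball, dist_pi_lt_iff hR]
  intro k
  rw [Real.dist_eq]
  unfold yt
  have h2 : t ^ 2 ≤ b ^ 2 := by
    have := ht.1; have := ht.2; nlinarith
  by_cases hi : k = i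
  · have hj : k ≠ j := by rw [hi]; exact hij
    rw [if_pos hi, if_neg hj]
    have : p k + t ^ 2 + 0 - p k = t ^ 2 := by ring
    rw [this, abs_of_nonneg (by positivity)]
    linarith
  · by_cases hj : k = j
    · rw [if_neg hi, if_pos hj]
      have : p k + 0 + t - p k = t := by ring
      rw [this, abs_of_nonneg ht.1]
      linarith [ht.2]
    · rw [if_neg hi, if_neg hj]
      simpa using hR

lemma im_aux (a c : ℝ) : ((a : ℂ) + (c : ℂ) * Complex.I).im = c := by simp

/-- the bounded part of the set -/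
def NN (g : (Fin n → ℂ) → ℂ) (p : Fin n → ℝ) (i j : Fin n) (b r : ℝ) : Set ((Fin n → ℝ) × ℝ) :=
  {q | q.1 ∈ closedBall (0 : Fin n → ℝ) r ∧ q.2 ∈ Icc 0 b ∧ ∃ s ∈ Icc (-r) r, g (pt p i j q.1 q.2 s) = 0}

lemma continuous_yt (p : Fin n → ℝ) (i j : Fin n) : Continuous (fun t : ℝ => yt p i j t) := by
  unfold yt
  refine continuous_pi fun k => ?_
  refine (continuous_const.add ?_).add ?_
  · by_cases hi : k = i
    · simp only [if_pos hi]; fun_prop
    · simp only [if_neg hi]; fun_prop
  · by_cases hj : k = j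
    · simp only [if_pos hj]; fun_prop
    · simp only [if_neg hj]; fun_prop

lemma measurable_NN {g : (Fin n → ℂ) → ℂ} {p : Fin n → ℝ} {i j : Fin n} (hij : i ≠ j) {R b r : ℝ}
    (hR : 0 < R) (hbR : b < R) (hb2 : b ^ 2 < R) (hg : DifferentiableOn ℂ g (tube (ball p R))) :
    MeasurableSet (NN g p i j b r) := by
  set K : Set ((Fin n → ℝ) × ℝ × ℝ) := closedBall (0 : Fin n → ℝ) r ×ˢ (Icc 0 b ×ˢ Icc (-r) r) with hK
  have hKc : IsCompact K := (isCompact_closedBall _ _).prod (isCompact_Icc.prod isCompact_Icc)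
  have hcont : ContinuousOn (fun q : (Fin n → ℝ) × ℝ × ℝ => g (pt p i j q.1 q.2.1 q.2.2)) K := by
    refine hg.continuousOn.comp (f := fun q : (Fin n → ℝ) × ℝ × ℝ => pt p i j q.1 q.2.1 q.2.2) ?_ ?_
    · refine Continuous.continuousOn ?_
      have : (fun q : (Fin n → ℝ) × ℝ × ℝ => pt p i j q.1 q.2.1 q.2.2)
          = fun q => cpt (Function.update q.1 i q.2.2) (yt p i j q.2.1) := by
        funext q; exact pt_eq p hij _ _ _
      rw [this]
      refine continuous_cpt.comp (f := fun q : (Fin n → ℝ) × ℝ × ℝ =>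
        (Function.update q.1 i q.2.2, yt p i j q.2.1)) ?_
      refine Continuous.prodMk ?_ ((continuous_yt p i j).comp (by fun_prop))
      exact Continuous.update continuous_fst i (by fun_prop)
    · intro q hq
      show imPart (pt p i j q.1 q.2.1 q.2.2) ∈ ball p R
      rw [pt_eq p hij, imPart_cpt]
      exact yt_mem p hij hR hbR hb2 hq.2.1
  have hZ : IsClosed (K ∩ (fun q : (Fin n → ℝ) × ℝ × ℝ => g (pt p i j q.1 q.2.1 q.2.2)) ⁻¹' {0}) :=
    hcont.preimage_isClosed_of_isClosed hKc.isClosed isClosed_singleton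
  have hZc : IsCompact (K ∩ (fun q : (Fin n → ℝ) × ℝ × ℝ => g (pt p i j q.1 q.2.1 q.2.2)) ⁻¹' {0}) :=
    hKc.of_isClosed_subset hZ inter_subset_left
  have himg : NN g p i j b r = (fun q : (Fin n → ℝ) × ℝ × ℝ => (q.1, q.2.1)) ''
      (K ∩ (fun q : (Fin n → ℝ) × ℝ × ℝ => g (pt p i j q.1 q.2.1 q.2.2)) ⁻¹' {0}) := by
    ext q
    constructor
    · rintro ⟨h1, h2, s, hs, h3⟩
      exact ⟨(q.1, q.2, s), ⟨⟨h1, h2, hs⟩, h3⟩, rfl⟩
    · rintro ⟨⟨x, t, s⟩, ⟨⟨h1, h2, hs⟩, h3⟩, rfl⟩
      exact ⟨h1, h2, s, hs, h3⟩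
  rw [himg]
  exact (hZc.image (by fun_prop)).isClosed.measurableSet

lemma slice_null (h2 : S_NULL2) {g : (Fin n → ℂ) → ℂ} {p : Fin n → ℝ} {i j : Fin n} (hij : i ≠ j)
    {R b r : ℝ} (hR : 0 < R) (hbR : b < R) (hb2 : b ^ 2 < R)
    (hg : DifferentiableOn ℂ g (tube (ball p R))) (x : Fin n → ℝ) (hx : g (cpt x p) ≠ 0) :
    volume {q : ℝ × ℝ | (Function.update x j q.1, q.2) ∈ NN g p i j b r} = 0 := by
  set G : ℂ × ℂ → ℂ := fun q => g (Function.update (Function.update (cpt x p) i
    (q.1 + (p i : ℂ) * Complex.I)) j (q.2 + (p j : ℂ) * Complex.I)) with hG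
  have hdiff : DifferentiableOn ℂ G {q | |q.1.im| < R ∧ |q.2.im| < R} := by
    refine hg.comp (f := fun q : ℂ × ℂ => Function.update (Function.update (cpt x p) i
      (q.1 + (p i : ℂ) * Complex.I)) j (q.2 + (p j : ℂ) * Complex.I)) ?_ ?_
    · refine Differentiable.differentiableOn ?_
      rw [differentiable_pi]
      intro k
      by_cases hj : k = j
      · subst hj
        simp only [Function.update_self]
        fun_prop
      · simp only [Function.update_of_ne hj]
        by_cases hi : k = i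
        · subst hi
          simp only [Function.update_self]
          fun_prop
        · simp only [Function.update_of_ne hi]
          fun_prop
    · intro q hq
      show imPart _ ∈ ball p R
      rw [mem_ball, dist_pi_lt_iff hR]
      intro k
      rw [Real.dist_eq]
      unfold imPart
      beta_reduce
      by_cases hj : k = j
      · subst hj
        rw [Function.update_self]
        simpa using hq.2
      · rw [Function.update_of_ne hj]
        by_cases hi : k = i
        · subst hi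
          rw [Function.update_self]
          simpa using hq.1
        · rw [Function.update_of_ne hi]
          simpa [cpt] using hR
  have hne : G ((x i : ℂ), (x j : ℂ)) ≠ 0 := by
    have : Function.update (Function.update (cpt x p) i
      ((x i : ℂ) + (p i : ℂ) * Complex.I)) j ((x j : ℂ) + (p j : ℂ) * Complex.I) = cpt x p := by
      funext k
      by_cases hj : k = j
      · subst hj; rw [Function.update_self]; rfl
      · rw [Function.update_of_ne hj]
        by_cases hi : k = i
        · subst hi; rw [Function.update_self]; rfl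
        · rw [Function.update_of_ne hi]
    show g _ ≠ 0
    rw [this]; exact hx
  have hnull := h2 R G hR hdiff ⟨((x i : ℂ), (x j : ℂ)), by simpa using hR, by simpa using hR, hne⟩
  have hpre := Complex.volume_preserving_equiv_real_prod.symm.quasiMeasurePreserving.preimage_null hnull
  refine measure_mono_null ?_ hpre
  rintro ⟨s, t⟩ ⟨-, ht, σ, -, hσ⟩
  show _ ∈ {w : ℂ | |w.im| < R ∧ w.im ^ 2 < R ∧ ∃ ζ : ℂ, ζ.im = w.im ^ 2 ∧ G (ζ, w) = 0}
  have htb : |t| < R := by
    rw [abs_of_nonneg ht.1]; linarith [ht.2]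
  have ht2 : t ^ 2 < R := by
    have := ht.1; have := ht.2
    have : t ^ 2 ≤ b ^ 2 := by nlinarith
    linarith
  refine ⟨htb, ht2, (σ : ℂ) + ((t ^ 2 : ℝ) : ℂ) * Complex.I, im_aux _ _, ?_⟩
  show g _ = 0
  rw [← hσ]
  congr 1
  funext k
  rw [pt_eq p hij]
  by_cases hj : k = j
  · subst hj
    rw [Function.update_self]
    have hki : k ≠ i := fun h => hij h.symm
    simp only [cpt, yt, Function.update_of_ne hki, Function.update_self, if_neg hki]
    apply Complex.ext <;> simp <;> ring
  · rw [Function.update_of_ne hj]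
    by_cases hi : k = i
    · subst hi
      simp only [Function.update_self, cpt, yt, if_pos rfl, if_neg hj]
      apply Complex.ext <;> simp <;> ring
    · rw [Function.update_of_ne hi]
      simp only [cpt, yt, Function.update_of_ne hi, Function.update_of_ne hj, if_neg hi, if_neg hj]
      simp

lemma NN_null (hZN : S_ZN) (h2 : S_NULL2) (hF : S_FUB) {g : (Fin n → ℂ) → ℂ} {p : Fin n → ℝ}
    {i j : Fin n} (hij : i ≠ j) {R M b r : ℝ} (hr : 0 < r) (hR : 0 < R) (hM : 0 ≤ M) (hbR : b < R)
    (hb2 : b ^ 2 < R) (hol : Hol g p R M) (hex : ∃ z ∈ tube (ball p R), g z ≠ 0) :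
    volume (NN g p i j b r) = 0 := by
  have hmeas : MeasurableSet (NN g p i j b r) := measurable_NN hij hR hbR hb2 hol.2.1
  set F : (Fin n → ℝ) → ENNReal := fun x => volume (Prod.mk x ⁻¹' NN g p i j b r) with hFdef
  have hFm : Measurable F := measurable_measure_prodMk_left hmeas
  have e1 : volume (NN g p i j b r) = ∫⁻ x, F x := by
    rw [Measure.volume_eq_prod, Measure.prod_apply hmeas]
  have e2 : ∫⁻ x, F x = ∫⁻ x in closedBall (0 : Fin n → ℝ) r, F x := by
    rw [← lintegral_indicator measurableSet_closedBall]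
    refine lintegral_congr fun x => ?_
    by_cases hx : x ∈ closedBall (0 : Fin n → ℝ) r
    · rw [indicator_of_mem hx]
    · rw [indicator_of_notMem hx]
      have : Prod.mk x ⁻¹' NN g p i j b r = ∅ := by
        ext t
        simp only [mem_preimage, mem_empty_iff_false, iff_false]
        intro h
        exact hx h.1
      rw [hFdef]
      simp only [this, measure_empty]
  have e3 := hF n j (0 : Fin n → ℝ) r hr F hFm
  have hz : ∀ᵐ x : Fin n → ℝ, g (cpt x p) ≠ 0 :=
    hZN n g p R M hR hM hol hex p (mem_ball_self hR)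
  have e4 : ∫⁻ x in closedBall (0 : Fin n → ℝ) r,
      ∫⁻ s in Icc ((0 : Fin n → ℝ) j - r) ((0 : Fin n → ℝ) j + r), F (Function.update x j s) = 0 := by
    have : ∀ᵐ x ∂(volume.restrict (closedBall (0 : Fin n → ℝ) r)),
        ∫⁻ s in Icc ((0 : Fin n → ℝ) j - r) ((0 : Fin n → ℝ) j + r), F (Function.update x j s) = 0 := by
      refine ae_restrict_of_ae ?_
      filter_upwards [hz] with x hx
      have hs := slice_null h2 hij (r := r) hR hbR hb2 hol.2.1 x hx
      have hm2 : MeasurableSet {q : ℝ × ℝ | (Function.update x j q.1, q.2) ∈ NN g p i j b r} := by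
        refine hmeas.preimage ?_
        refine Measurable.prodMk ?_ measurable_snd
        exact (measurable_update x).comp measurable_fst
      rw [Measure.volume_eq_prod, Measure.prod_apply hm2] at hs
      refine le_antisymm ?_ zero_le
      calc ∫⁻ s in Icc ((0 : Fin n → ℝ) j - r) ((0 : Fin n → ℝ) j + r), F (Function.update x j s)
          ≤ ∫⁻ s, F (Function.update x j s) := setLIntegral_le_lintegral _ _
        _ = 0 := hs
    rw [lintegral_congr_ae this, lintegral_zero]
  rw [e4] at e3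
  have hne : ENNReal.ofReal (2 * r) ≠ 0 := by
    simp only [ne_eq, ENNReal.ofReal_eq_zero, not_le]; linarith
  rcases mul_eq_zero.1 e3.symm with h | h
  · exact absurd h hne
  · rw [e1, e2]; exact h

theorem nulln : S_ZN → S_NULL2 → S_FUB → S_NULLN := by
  intro hZN h2 hF n i j hij g p R M b hR hM hol hex hb hbR hb2
  have hsub : {q : (Fin n → ℝ) × ℝ | q.2 ∈ Icc 0 b ∧ ∃ ζ : ℂ, ζ.im = p i + q.2 ^ 2 ∧
      g (Function.update (cpt q.1 (yt p i j q.2)) i ζ) = 0} ⊆ ⋃ m : ℕ, NN g p i j b ((m : ℝ) + 1) := by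
    rintro ⟨x, t⟩ ⟨ht, ζ, hζ, h0⟩
    rw [mem_iUnion]
    obtain ⟨m, hm⟩ := exists_nat_ge (max ‖x‖ |ζ.re|)
    refine ⟨m, ?_, ht, ζ.re, ?_, ?_⟩
    · rw [mem_closedBall_zero_iff]
      have := le_max_left ‖x‖ |ζ.re|
      show ‖x‖ ≤ _
      linarith
    · have h := le_max_right ‖x‖ |ζ.re|
      have h' : |ζ.re| ≤ (m : ℝ) + 1 := by linarith
      exact ⟨(abs_le.1 h').1, (abs_le.1 h').2⟩
    · have : ((ζ.re : ℂ) + ((p i + t ^ 2 : ℝ) : ℂ) * Complex.I) = ζ := by
        have h1 : p i + t ^ 2 = ζ.im := hζ.symm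
        rw [h1]
        exact Complex.re_add_im ζ
      show g (Function.update (cpt x (yt p i j t)) i
        ((ζ.re : ℂ) + ((p i + t ^ 2 : ℝ) : ℂ) * Complex.I)) = 0
      rw [this]
      exact h0
  refine measure_mono_null hsub ?_
  rw [measure_iUnion_null_iff]
  intro m
  exact NN_null hZN h2 hF hij (by positivity) hR hM hbR hb2 hol hex

end Pool.Agent.W115.JS.NullN
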